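import Pool.Agent.Y985.ME.Stm
import Pool.Agent.H984R4.NP.Limit

/-!
Counts of the grid points near a compact set: finiteness, monotonicity, semicontinuity, areas.
-/

set_option autoImplicit false

namespace Pool.Agent.Y256.ME

open H974 Finset H342P H984P H984N MeasureTheory Filter Topology Pool.Agent.Y985.ME

/-- The grid point. -/
def gp (ε : ℝ) (z : ℤ × ℤ) : ℂ := ⟨ε * z.1, ε * z.2⟩

/-- Grid points with distance at most `r` to `K`. -/
def cs (ε r : ℝ) (K : Set ℂ) : Set (ℤ × ℤ) := {z | ∃ w ∈ K, dist w (gp ε z) ≤ r}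

/-- Grid points with distance less than `r` to `K`. -/
def co (ε r : ℝ) (K : Set ℂ) : Set (ℤ × ℤ) := {z | ∃ w ∈ K, dist w (gp ε z) < r}

theorem cnt_eq (ε r : ℝ) (K : Set ℂ) : cnt ε r K = (cs ε r K).ncard := rfl

theorem cs_finite {ε : ℝ} (hε : 0 < ε) (r : ℝ) {K : Set ℂ} (hK : Bornology.IsBounded K) :
    (cs ε r K).Finite := by
  obtain ⟨B, hB⟩ := hK.exists_norm_le
  set M : ℤ := ⌈(B + r) / ε⌉ with hM
  refine Set.Finite.subset (Set.toFinite
    ((Set.Icc (-M) M) ×ˢ (Set.Icc (-M) M) : Set (ℤ × ℤ))) ?_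
  rintro ⟨a, b⟩ ⟨w, hw, hd⟩
  have h1 : ‖gp ε (a, b)‖ ≤ B + r := by
    have := hB w hw
    calc ‖gp ε (a, b)‖ = ‖w - (w - gp ε (a, b))‖ := by congr 1; ring
      _ ≤ ‖w‖ + ‖w - gp ε (a, b)‖ := norm_sub_le _ _
      _ ≤ B + r := by rw [← dist_eq_norm]; linarith
  have key : ∀ x : ℤ, |ε * (x : ℝ)| ≤ B + r → x ∈ Set.Icc (-M) M := by
    intro x hx
    rw [abs_mul, abs_of_pos hε] at hx
    have h2 : |(x : ℝ)| ≤ (B + r) / ε := by
      rw [le_div_iff₀ hε]; linarith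
    have h3 : |(x : ℝ)| ≤ M := h2.trans (Int.le_ceil _)
    rw [abs_le] at h3
    constructor
    · exact_mod_cast h3.1
    · exact_mod_cast h3.2
  exact ⟨key a ((Complex.abs_re_le_norm (gp ε (a, b))).trans h1),
    key b ((Complex.abs_im_le_norm (gp ε (a, b))).trans h1)⟩

theorem co_sub_cs (ε r : ℝ) (K : Set ℂ) : co ε r K ⊆ cs ε r K := by
  rintro z ⟨w, hw, hd⟩
  exact ⟨w, hw, hd.le⟩

theorem co_finite {ε : ℝ} (hε : 0 < ε) (r : ℝ) {K : Set ℂ} (hK : Bornology.IsBounded K) :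
    (co ε r K).Finite := (cs_finite hε r hK).subset (co_sub_cs ε r K)

theorem cs_mono {ε r r' d : ℝ} {K K' : Set ℂ} (h : ∀ w ∈ K, ∃ w' ∈ K', dist w' w ≤ d)
    (hr : r + d ≤ r') : cs ε r K ⊆ cs ε r' K' := by
  rintro z ⟨w, hw, hd⟩
  obtain ⟨w', hw', hd'⟩ := h w hw
  exact ⟨w', hw', (dist_triangle _ w _).trans (by linarith)⟩

/-- The image of the piece. -/
def pc (f : C(unitInterval, ℂ)) (s t : unitInterval) : Set ℂ := f '' Set.Icc s t

theorem pc_compact (f : C(unitInterval, ℂ)) (s t : unitInterval) : IsCompact (pc f s t) :=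
  isCompact_Icc.image f.continuous

theorem pc_near {f g : C(unitInterval, ℂ)} {η : ℝ} (h : dist f g ≤ η) (s t : unitInterval) :
    ∀ w ∈ pc f s t, ∃ w' ∈ pc g s t, dist w' w ≤ η := by
  rintro w ⟨u, hu, rfl⟩
  refine ⟨g u, ⟨u, hu, rfl⟩, ?_⟩
  rw [dist_comm]
  exact (ContinuousMap.dist_apply_le_dist u).trans h

/-- Upper semicontinuity of the closed count. -/
theorem cs_usc {ε : ℝ} (hε : 0 < ε) (r : ℝ) (f : C(unitInterval, ℂ)) (s t : unitInterval) :
    ∃ η : ℝ, 0 < η ∧ ∀ g : C(unitInterval, ℂ), dist g f < η → cs ε r (pc g s t) ⊆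
      cs ε r (pc f s t) := by
  classical
  have hK := pc_compact f s t
  have hfin := cs_finite hε (r + 1) hK.isBounded
  -- the gap of a point
  have hgap : ∀ z ∈ cs ε (r + 1) (pc f s t) \ cs ε r (pc f s t), ∃ η : ℝ, 0 < η ∧
      ∀ w ∈ pc f s t, r + η < dist w (gp ε z) := by
    rintro z ⟨⟨w0, hw0, -⟩, hz⟩
    obtain ⟨w1, hw1, hmin⟩ := hK.exists_isMinOn ⟨w0, hw0⟩
      (f := fun w => dist w (gp ε z)) (by fun_prop)
    have h1 : r < dist w1 (gp ε z) := by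
      by_contra hcon
      exact hz ⟨w1, hw1, not_lt.1 hcon⟩
    refine ⟨(dist w1 (gp ε z) - r) / 2, by linarith, fun w hw => ?_⟩
    have h2 : dist w1 (gp ε z) ≤ dist w (gp ε z) := hmin hw
    linarith
  choose! gap hgap0 hgap1 using hgap
  have hfin2 : (cs ε (r + 1) (pc f s t) \ cs ε r (pc f s t)).Finite := hfin.subset Set.sdiff_subset
  obtain ⟨η, hη0, hη1, hη⟩ : ∃ η : ℝ, 0 < η ∧ η ≤ 1 ∧
      ∀ z ∈ cs ε (r + 1) (pc f s t) \ cs ε r (pc f s t), η ≤ gap z := by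
    have : ∀ S : Finset (ℤ × ℤ), (∀ z ∈ S, z ∈ cs ε (r + 1) (pc f s t) \ cs ε r (pc f s t)) →
        ∃ η : ℝ, 0 < η ∧ η ≤ 1 ∧ ∀ z ∈ S, η ≤ gap z := by
      intro S
      induction S using Finset.induction_on with
      | empty => intro _; exact ⟨1, one_pos, le_rfl, by simp⟩
      | insert a S ha ih =>
        intro hS
        obtain ⟨η, h0, h1, h2⟩ := ih (fun z hz => hS z (Finset.mem_insert_of_mem hz))
        refine ⟨min η (gap a), lt_min h0 (hgap0 a (hS a (Finset.mem_insert_self _ _))),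
          (min_le_left _ _).trans h1, fun z hz => ?_⟩
        rcases Finset.mem_insert.1 hz with rfl | hz
        · exact min_le_right _ _
        · exact (min_le_left _ _).trans (h2 z hz)
    obtain ⟨η, h0, h1, h2⟩ := this hfin2.toFinset (fun z hz => hfin2.mem_toFinset.1 hz)
    exact ⟨η, h0, h1, fun z hz => h2 z (hfin2.mem_toFinset.2 hz)⟩
  refine ⟨η, hη0, fun g hg z hz => ?_⟩
  by_contra hcon
  have h1 : z ∈ cs ε (r + η) (pc f s t) := by
    have := cs_mono (ε := ε) (r := r) (r' := r + η) (d := η) (pc_near hg.le s t) le_rfl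
    exact this hz
  have h2 : z ∈ cs ε (r + 1) (pc f s t) := by
    obtain ⟨w, hw, hd⟩ := h1
    exact ⟨w, hw, hd.trans (by linarith)⟩
  obtain ⟨w, hw, hd⟩ := h1
  have h3 := hgap1 z ⟨h2, hcon⟩ w hw
  have h4 := hη z ⟨h2, hcon⟩
  linarith

/-- Lower semicontinuity of the open count. -/
theorem co_lsc {ε : ℝ} (hε : 0 < ε) (r : ℝ) (f : C(unitInterval, ℂ)) (s t : unitInterval) :
    ∃ η : ℝ, 0 < η ∧ ∀ g : C(unitInterval, ℂ), dist g f < η → co ε r (pc f s t) ⊆
      co ε r (pc g s t) := by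
  classical
  have hfin := co_finite hε r (pc_compact f s t).isBounded
  have hgap : ∀ z ∈ co ε r (pc f s t), ∃ η : ℝ, 0 < η ∧
      ∃ w ∈ pc f s t, dist w (gp ε z) + η ≤ r := by
    rintro z ⟨w0, hw0, h⟩
    exact ⟨r - dist w0 (gp ε z), by linarith, w0, hw0, by linarith⟩
  choose! gap hgap0 hgap1 using hgap
  obtain ⟨η, hη0, hη⟩ : ∃ η : ℝ, 0 < η ∧ ∀ z ∈ co ε r (pc f s t), η ≤ gap z := by
    have : ∀ S : Finset (ℤ × ℤ), (∀ z ∈ S, z ∈ co ε r (pc f s t)) →
        ∃ η : ℝ, 0 < η ∧ ∀ z ∈ S, η ≤ gap z := by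
      intro S
      induction S using Finset.induction_on with
      | empty => intro _; exact ⟨1, one_pos, by simp⟩
      | insert a S ha ih =>
        intro hS
        obtain ⟨η, h0, h2⟩ := ih (fun z hz => hS z (Finset.mem_insert_of_mem hz))
        refine ⟨min η (gap a), lt_min h0 (hgap0 a (hS a (Finset.mem_insert_self _ _))),
          fun z hz => ?_⟩
        rcases Finset.mem_insert.1 hz with rfl | hz
        · exact min_le_right _ _
        · exact (min_le_left _ _).trans (h2 z hz)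
    obtain ⟨η, h0, h2⟩ := this hfin.toFinset (fun z hz => hfin.mem_toFinset.1 hz)
    exact ⟨η, h0, fun z hz => h2 z (hfin.mem_toFinset.2 hz)⟩
  refine ⟨η, hη0, fun g hg z hz => ?_⟩
  obtain ⟨w, ⟨u, hu, rfl⟩, hd⟩ := hgap1 z hz
  refine ⟨g u, ⟨u, hu, rfl⟩, ?_⟩
  have h1 : dist (g u) (f u) < η := (ContinuousMap.dist_apply_le_dist u).trans_lt hg
  have h2 := hη z hz
  have h3 := dist_triangle (g u) (f u) (gp ε z)
  linarith

/-- The closed set of the passage to the limit. -/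
def GG (c0 C0 θ ε : ℝ) : Set X := {p | ∀ s t : unitInterval, s ≤ t →
  c0 * (p.2 * ((t : ℝ) - s)) ≤
    ε ^ (7/4 : ℝ) * ((cs ε (3/2 * ε) (pc p.1 s t)).ncard : ℝ) + 2 * ε ^ θ ∧
  ε ^ (7/4 : ℝ) * ((co ε (5/2 * ε) (pc p.1 s t)).ncard : ℝ) ≤
    C0 * (p.2 * ((t : ℝ) - s)) + 2 * ε ^ θ}

theorem GG_closed {c0 C0 θ ε : ℝ} (hε : 0 < ε) : IsClosed (GG c0 C0 θ ε) := by
  have h74 : (0:ℝ) ≤ ε ^ (7/4 : ℝ) := Real.rpow_nonneg hε.le _
  have e : GG c0 C0 θ ε = ⋂ (s : unitInterval) (t : unitInterval) (_ : s ≤ t),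
      ({p : X | c0 * (p.2 * ((t : ℝ) - s)) ≤
        ε ^ (7/4 : ℝ) * ((cs ε (3/2 * ε) (pc p.1 s t)).ncard : ℝ) + 2 * ε ^ θ} ∩
      {p : X | ε ^ (7/4 : ℝ) * ((co ε (5/2 * ε) (pc p.1 s t)).ncard : ℝ) ≤
        C0 * (p.2 * ((t : ℝ) - s)) + 2 * ε ^ θ}) := by
    ext p
    simp only [GG, Set.mem_iInter, Set.mem_inter_iff]
    rfl
  rw [e]
  refine isClosed_iInter fun s => isClosed_iInter fun t => isClosed_iInter fun _ =>
    IsClosed.inter ?_ ?_
  · rw [← isOpen_compl_iff, isOpen_iff_mem_nhds]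
    intro p hp
    have hp' : ε ^ (7/4 : ℝ) * ((cs ε (3/2 * ε) (pc p.1 s t)).ncard : ℝ) + 2 * ε ^ θ <
        c0 * (p.2 * ((t : ℝ) - s)) := not_le.1 hp
    obtain ⟨η, hη, hu⟩ := cs_usc hε (3/2 * ε) p.1 s t
    have h1 : ∀ᶠ q : X in 𝓝 p, dist q.1 p.1 < η := by
      have : Tendsto (fun q : X => dist q.1 p.1) (𝓝 p) (𝓝 (dist p.1 p.1)) :=
        (continuous_fst.dist continuous_const).tendsto p
      rw [dist_self] at this
      exact this.eventually (gt_mem_nhds hη)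
    have h2 : ∀ᶠ q : X in 𝓝 p,
        ε ^ (7/4 : ℝ) * ((cs ε (3/2 * ε) (pc p.1 s t)).ncard : ℝ) + 2 * ε ^ θ <
        c0 * (q.2 * ((t : ℝ) - s)) := by
      have : Continuous (fun q : X => c0 * (q.2 * ((t : ℝ) - s))) := by fun_prop
      exact this.tendsto p (lt_mem_nhds hp')
    filter_upwards [h1, h2] with q hq1 hq2
    refine not_le.2 (lt_of_le_of_lt ?_ hq2)
    have h3 : (cs ε (3/2 * ε) (pc q.1 s t)).ncard ≤ (cs ε (3/2 * ε) (pc p.1 s t)).ncard :=
      Set.ncard_le_ncard (hu q.1 hq1) (cs_finite hε _ (pc_compact _ _ _).isBounded)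
    have h4 : ((cs ε (3/2 * ε) (pc q.1 s t)).ncard : ℝ) ≤
      ((cs ε (3/2 * ε) (pc p.1 s t)).ncard : ℝ) := by exact_mod_cast h3
    have := mul_le_mul_of_nonneg_left h4 h74
    linarith
  · rw [← isOpen_compl_iff, isOpen_iff_mem_nhds]
    intro p hp
    have hp' : C0 * (p.2 * ((t : ℝ) - s)) + 2 * ε ^ θ <
        ε ^ (7/4 : ℝ) * ((co ε (5/2 * ε) (pc p.1 s t)).ncard : ℝ) := not_le.1 hp
    obtain ⟨η, hη, hu⟩ := co_lsc hε (5/2 * ε) p.1 s t
    have h1 : ∀ᶠ q : X in 𝓝 p, dist q.1 p.1 < η := by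
      have : Tendsto (fun q : X => dist q.1 p.1) (𝓝 p) (𝓝 (dist p.1 p.1)) :=
        (continuous_fst.dist continuous_const).tendsto p
      rw [dist_self] at this
      exact this.eventually (gt_mem_nhds hη)
    have h2 : ∀ᶠ q : X in 𝓝 p, C0 * (q.2 * ((t : ℝ) - s)) + 2 * ε ^ θ <
        ε ^ (7/4 : ℝ) * ((co ε (5/2 * ε) (pc p.1 s t)).ncard : ℝ) := by
      have : Continuous (fun q : X => C0 * (q.2 * ((t : ℝ) - s)) + 2 * ε ^ θ) := by fun_prop
      exact this.tendsto p (gt_mem_nhds hp')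
    filter_upwards [h1, h2] with q hq1 hq2
    refine not_le.2 (lt_of_lt_of_le hq2 ?_)
    have h3 : (co ε (5/2 * ε) (pc p.1 s t)).ncard ≤ (co ε (5/2 * ε) (pc q.1 s t)).ncard :=
      Set.ncard_le_ncard (hu q.1 hq1) (co_finite hε _ (pc_compact _ _ _).isBounded)
    have h4 : ((co ε (5/2 * ε) (pc p.1 s t)).ncard : ℝ) ≤
      ((co ε (5/2 * ε) (pc q.1 s t)).ncard : ℝ) := by exact_mod_cast h3
    exact mul_le_mul_of_nonneg_left h4 h74

/-! ### Areas -/

theorem gp_dist {ε : ℝ} (hε : 0 < ε) {z z' : ℤ × ℤ} (h : z ≠ z') :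
    ε ≤ dist (gp ε z) (gp ε z') := by
  obtain ⟨a, b⟩ := z
  obtain ⟨a', b'⟩ := z'
  have key : ∀ x y : ℤ, x ≠ y → ε ≤ |ε * (x : ℝ) - ε * (y : ℝ)| := by
    intro x y hxy
    rw [← mul_sub, abs_mul, abs_of_pos hε]
    have h1 : (1 : ℤ) ≤ |x - y| := Int.one_le_abs (sub_ne_zero.2 hxy)
    have h2 : (1 : ℝ) ≤ |(x : ℝ) - y| := by
      have : ((1 : ℤ) : ℝ) ≤ ((|x - y| : ℤ) : ℝ) := by exact_mod_cast h1
      push_cast at this
      exact this
    nlinarith
  by_cases hab : a = a'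
  · have hb : b ≠ b' := fun hb => h (by rw [hab, hb])
    exact (key b b' hb).trans (ML.le_dist_im (gp ε (a, b)) (gp ε (a', b')))
  · exact (key a a' hab).trans (ML.le_dist_re (gp ε (a, b)) (gp ε (a', b')))

theorem gp_near {ε : ℝ} (hε : 0 < ε) (x : ℂ) : ∃ z : ℤ × ℤ, dist x (gp ε z) ≤ ε := by
  refine ⟨(round (x.re / ε), round (x.im / ε)), ?_⟩
  have key : ∀ y : ℝ, |y - ε * (round (y / ε) : ℝ)| ≤ ε / 2 := by
    intro y
    have h1 := abs_sub_round (y / ε)
    have h2 : y - ε * (round (y / ε) : ℝ) = ε * (y / ε - round (y / ε)) := by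
      field_simp
    rw [h2, abs_mul, abs_of_pos hε]
    nlinarith
  refine (ML.dist_le_of (key x.re) (key x.im)).trans (by linarith)

theorem area_low {ε : ℝ} (hε : 0 < ε) {K : Set ℂ} (hK : IsCompact K) :
    Real.pi / 4 * ε ^ 2 * ((cs ε (3/2 * ε) K).ncard : ℝ) ≤
      (volume (Metric.cthickening (2 * ε) K)).toReal := by
  have hfin := cs_finite hε (3/2 * ε) hK.isBounded
  have hsub : (⋃ z ∈ hfin.toFinset, Metric.ball (gp ε z) (ε / 2)) ⊆
      Metric.cthickening (2 * ε) K := by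
    intro x hx
    simp only [Set.mem_iUnion] at hx
    obtain ⟨z, hz, hx⟩ := hx
    obtain ⟨w, hw, hd⟩ := hfin.mem_toFinset.1 hz
    apply Metric.mem_cthickening_of_dist_le x w _ _ hw
    have h1 := Metric.mem_ball.1 hx
    have h2 := dist_triangle x (gp ε z) w
    rw [dist_comm (gp ε z) w] at h2
    linarith
  have hdis : Set.PairwiseDisjoint (↑hfin.toFinset : Set (ℤ × ℤ))
      (fun z => Metric.ball (gp ε z) (ε / 2)) := by
    intro z _ z' _ hzz
    apply Metric.ball_disjoint_ball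
    have := gp_dist hε hzz
    linarith
  have hvol : volume (⋃ z ∈ hfin.toFinset, Metric.ball (gp ε z) (ε / 2)) =
      ENNReal.ofReal (Real.pi / 4 * ε ^ 2 * ((cs ε (3/2 * ε) K).ncard : ℝ)) := by
    rw [measure_biUnion_finset hdis (fun z _ => measurableSet_ball)]
    simp only [Complex.volume_ball, Finset.sum_const]
    rw [Set.ncard_eq_toFinset_card _ hfin, nsmul_eq_mul]
    rw [← ENNReal.ofReal_pow (by positivity)]
    have : ((NNReal.pi : NNReal) : ENNReal) = ENNReal.ofReal Real.pi := by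
      rw [ENNReal.ofReal, Real.toNNReal_of_nonneg Real.pi_pos.le]
      rfl
    rw [this, ← ENNReal.ofReal_mul (by positivity), ← ENNReal.ofReal_natCast,
      ← ENNReal.ofReal_mul (by positivity)]
    congr 1
    ring
  have hlt : volume (Metric.cthickening (2 * ε) K) ≠ ⊤ := hK.cthickening.measure_lt_top.ne
  have h1 := ENNReal.toReal_mono hlt (measure_mono hsub)
  rw [hvol, ENNReal.toReal_ofReal (by positivity)] at h1
  exact h1

theorem area_up {ε : ℝ} (hε : 0 < ε) {K : Set ℂ} (hK : IsCompact K) :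
    (volume (Metric.cthickening ε K)).toReal ≤
      Real.pi * ε ^ 2 * ((co ε (5/2 * ε) K).ncard : ℝ) := by
  have hfin := co_finite hε (5/2 * ε) hK.isBounded
  have hsub : Metric.cthickening ε K ⊆
      (⋃ z ∈ hfin.toFinset, Metric.closedBall (gp ε z) ε) := by
    intro x hx
    rw [hK.cthickening_eq_biUnion_closedBall hε.le] at hx
    simp only [Set.mem_iUnion] at hx
    obtain ⟨w, hw, hx⟩ := hx
    obtain ⟨z, hz⟩ := gp_near hε x
    simp only [Set.mem_iUnion]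
    refine ⟨z, hfin.mem_toFinset.2 ⟨w, hw, ?_⟩, Metric.mem_closedBall.2 hz⟩
    have h1 := Metric.mem_closedBall.1 hx
    have h2 := dist_triangle w x (gp ε z)
    rw [dist_comm w x] at h2
    linarith
  have h2 : volume (Metric.cthickening ε K) ≤
      ENNReal.ofReal (Real.pi * ε ^ 2 * ((co ε (5/2 * ε) K).ncard : ℝ)) := by
    refine (measure_mono hsub).trans ((measure_biUnion_finset_le _ _).trans ?_)
    simp only [Complex.volume_closedBall, Finset.sum_const]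
    rw [Set.ncard_eq_toFinset_card _ hfin, nsmul_eq_mul]
    rw [← ENNReal.ofReal_pow (by positivity)]
    have : ((NNReal.pi : NNReal) : ENNReal) = ENNReal.ofReal Real.pi := by
      rw [ENNReal.ofReal, Real.toNNReal_of_nonneg Real.pi_pos.le]
      rfl
    rw [this, ← ENNReal.ofReal_mul (by positivity), ← ENNReal.ofReal_natCast,
      ← ENNReal.ofReal_mul (by positivity)]
    apply ENNReal.ofReal_le_ofReal
    apply le_of_eq
    ring
  have h3 := ENNReal.toReal_mono ENNReal.ofReal_ne_top h2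
  rwa [ENNReal.toReal_ofReal (by positivity)] at h3

end Pool.Agent.Y256.ME
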