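import Pool.Agent.Y256.ME.A

/-!
The lattice curves are in the closed set.
-/

set_option autoImplicit false

namespace Pool.Agent.Y256.ME

open H974 Finset H342P H984P H984N MeasureTheory Filter Topology Pool.Agent.Y985.ME

/-- A point of the curve is close to the node before it. -/
theorem pl_floor {N : ℕ} {p : ℕ → ℂ} {d : ℝ} (hd : 0 ≤ d)
    (h : ∀ k < N, dist (p k) (p (k + 1)) ≤ d) (u : unitInterval) :
    ⌊(u : ℝ) * N⌋₊ ≤ N ∧ dist (pl N p u) (p ⌊(u : ℝ) * N⌋₊) ≤ d := by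
  have hN0 : (0 : ℝ) ≤ N := Nat.cast_nonneg N
  have h0 : 0 ≤ (u : ℝ) * N := mul_nonneg u.2.1 hN0
  have hle : (u : ℝ) * N ≤ N := by
    have := u.2.2
    nlinarith
  have hfl : ⌊(u : ℝ) * N⌋₊ ≤ N := by
    have := Nat.floor_le h0
    have h2 : (⌊(u : ℝ) * N⌋₊ : ℝ) ≤ N := this.trans hle
    exact_mod_cast h2
  refine ⟨hfl, ?_⟩
  rcases hfl.lt_or_eq with hlt | heq
  · have h1 := Nat.floor_le h0
    have h2 := (Nat.lt_floor_add_one ((u : ℝ) * N)).le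
    rw [pl_seg hlt h1 h2, dist_eq_norm]
    have e : p ⌊(u : ℝ) * N⌋₊ + (((u : ℝ) * N - ⌊(u : ℝ) * N⌋₊ : ℝ) : ℂ) *
        (p (⌊(u : ℝ) * N⌋₊ + 1) - p ⌊(u : ℝ) * N⌋₊) - p ⌊(u : ℝ) * N⌋₊ =
        (((u : ℝ) * N - ⌊(u : ℝ) * N⌋₊ : ℝ) : ℂ) *
          (p (⌊(u : ℝ) * N⌋₊ + 1) - p ⌊(u : ℝ) * N⌋₊) := by ring
    rw [e, norm_mul, Complex.norm_real, Real.norm_eq_abs, abs_of_nonneg (by linarith)]
    have h3 := h _ hlt
    rw [dist_comm, dist_eq_norm] at h3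
    have h4 := norm_nonneg (p (⌊(u : ℝ) * N⌋₊ + 1) - p ⌊(u : ℝ) * N⌋₊)
    nlinarith
  · rw [heq]
    rcases Nat.eq_zero_or_pos N with hN | hN
    · subst hN
      rw [pl_apply']
      simpa using hd
    · have h1 := Nat.floor_le h0
      rw [heq] at h1
      have h2 : (u : ℝ) * N = N := le_antisymm hle h1
      have hN' : (0 : ℝ) < N := by exact_mod_cast hN
      have h3 : (u : ℝ) = 1 := by
        have : (u : ℝ) * N = 1 * N := by rw [h2, one_mul]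
        exact mul_right_cancel₀ hN'.ne' this
      have h4 : u = 1 := Subtype.ext h3
      rw [h4, pl_one, dist_self]
      exact hd

/-- A node is on the curve. -/
theorem pl_node {N : ℕ} {p : ℕ → ℂ} {k : ℕ} (hk : k ≤ N) (hN : 0 < N) {u : unitInterval}
    (hu : (u : ℝ) * N = k) : pl N p u = p k := by
  rcases hk.lt_or_eq with hlt | heq
  · rw [pl_seg hlt hu.ge (by rw [hu]; linarith), hu]
    simp
  · have hN' : (0 : ℝ) < N := by exact_mod_cast hN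
    have h3 : (u : ℝ) = 1 := by
      have : (u : ℝ) * N = 1 * N := by rw [hu, one_mul, heq]
      exact mul_right_cancel₀ hN'.ne' this
    have h4 : u = 1 := Subtype.ext h3
    rw [h4, pl_one, heq]

theorem near1 {N : ℕ} {p : ℕ → ℂ} {d : ℝ} (hd : 0 ≤ d)
    (h : ∀ k < N, dist (p k) (p (k + 1)) ≤ d) {s t : unitInterval} (hst : s ≤ t) :
    ∀ w ∈ p '' Set.Icc ⌊(s : ℝ) * N⌋₊ ⌊(t : ℝ) * N⌋₊, ∃ w' ∈ pc (pl N p) s t, dist w' w ≤ d := by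
  rintro w ⟨k, ⟨hk1, hk2⟩, rfl⟩
  have hN0 : (0 : ℝ) ≤ N := Nat.cast_nonneg N
  rcases hk1.lt_or_eq with hlt | heq
  · have h0 : 0 ≤ (t : ℝ) * N := mul_nonneg t.2.1 hN0
    have h1 : (k : ℝ) ≤ t * N := (Nat.cast_le.2 hk2).trans (Nat.floor_le h0)
    have h2 : (s : ℝ) * N < k := (Nat.floor_lt (mul_nonneg s.2.1 hN0)).1 hlt
    have hkN : k ≤ N := hk2.trans (pl_floor hd h t).1
    have hN : 0 < N := by omega
    have hN' : (0 : ℝ) < N := by exact_mod_cast hN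
    have hu0 : 0 ≤ (k : ℝ) / N := by positivity
    have hu1 : (k : ℝ) / N ≤ 1 := by
      rw [div_le_one hN']
      exact_mod_cast hkN
    refine ⟨pl N p ⟨(k : ℝ) / N, hu0, hu1⟩, ⟨_, ⟨?_, ?_⟩, rfl⟩, ?_⟩
    · show (s : ℝ) ≤ (k : ℝ) / N
      rw [le_div_iff₀ hN']
      exact h2.le
    · show (k : ℝ) / N ≤ t
      rw [div_le_iff₀ hN']
      exact h1
    · rw [pl_node hkN hN (by show (k : ℝ) / N * N = k; field_simp), dist_self]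
      exact hd
  · refine ⟨pl N p s, ⟨s, ⟨le_rfl, hst⟩, rfl⟩, ?_⟩
    rw [← heq]
    exact (pl_floor hd h s).2

theorem near2 {N : ℕ} {p : ℕ → ℂ} {d : ℝ} (hd : 0 ≤ d)
    (h : ∀ k < N, dist (p k) (p (k + 1)) ≤ d) {s t : unitInterval} :
    ∀ w ∈ pc (pl N p) s t, ∃ w' ∈ p '' Set.Icc ⌊(s : ℝ) * N⌋₊ ⌊(t : ℝ) * N⌋₊,
      dist w' w ≤ d := by
  rintro w ⟨u, ⟨hu1, hu2⟩, rfl⟩
  have hN0 : (0 : ℝ) ≤ N := Nat.cast_nonneg N
  refine ⟨p ⌊(u : ℝ) * N⌋₊, ⟨_, ⟨?_, ?_⟩, rfl⟩, ?_⟩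
  · exact Nat.floor_le_floor (mul_le_mul_of_nonneg_right hu1 hN0)
  · exact Nat.floor_le_floor (mul_le_mul_of_nonneg_right hu2 hN0)
  · rw [dist_comm]
    exact (pl_floor hd h u).2

/-- The lattice curves are in the closed set. -/
theorem lat {N : ℕ} {p : ℕ → ℂ} {c0 C0 θ ε δ : ℝ} (hc0 : 0 < c0) (hC0 : 0 < C0) (hε : 0 < ε)
    (hδ : 0 < δ) (hδε : δ ≤ ε) (h1 : c0 * δ ^ (7/4 : ℝ) ≤ ε ^ θ) (h2 : C0 * δ ^ (7/4 : ℝ) ≤ ε ^ θ)
    (hp : ∀ k, dist (p k) (p (k + 1)) ≤ δ / 2)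
    (H : ∀ i j : ℕ, i ≤ j → j ≤ N →
      c0 * (δ ^ (7/4 : ℝ) * ((j - i : ℕ) : ℝ)) ≤ ε ^ (7/4 : ℝ) *
        (cnt ε ε (p '' Set.Icc i j) : ℝ) + ε ^ θ ∧
      ε ^ (7/4 : ℝ) * (cnt ε (3 * ε) (p '' Set.Icc i j) : ℝ) ≤
        C0 * (δ ^ (7/4 : ℝ) * ((j - i : ℕ) : ℝ)) + ε ^ θ) :
    ((pl N p, δ ^ (7/4 : ℝ) * N) : X) ∈ GG c0 C0 θ ε := by
  intro s t hst
  have hN0 : (0 : ℝ) ≤ N := Nat.cast_nonneg N
  have hd : (0 : ℝ) ≤ δ / 2 := by positivity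
  have hp' : ∀ k < N, dist (p k) (p (k + 1)) ≤ δ / 2 := fun k _ => hp k
  set i := ⌊(s : ℝ) * N⌋₊ with hi
  set j := ⌊(t : ℝ) * N⌋₊ with hj
  have hst' : (s : ℝ) ≤ t := hst
  have hij : i ≤ j := Nat.floor_le_floor (mul_le_mul_of_nonneg_right hst' hN0)
  have hjN : j ≤ N := (pl_floor hd hp' t).1
  obtain ⟨H1, H2⟩ := H i j hij hjN
  have hδ7 : (0:ℝ) < δ ^ (7/4 : ℝ) := Real.rpow_pos_of_pos hδ _
  have hε7 : (0:ℝ) ≤ ε ^ (7/4 : ℝ) := Real.rpow_nonneg hε.le _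
  have b1 := Nat.floor_le (mul_nonneg s.2.1 hN0)
  have b2 := Nat.lt_floor_add_one ((s : ℝ) * N)
  have b3 := Nat.floor_le (mul_nonneg t.2.1 hN0)
  have b4 := Nat.lt_floor_add_one ((t : ℝ) * N)
  rw [← hi] at b1 b2
  rw [← hj] at b3 b4
  have hcast : ((j - i : ℕ) : ℝ) = (j : ℝ) - i := by rw [Nat.cast_sub hij]
  rw [hcast] at H1 H2
  have bK := (pc_compact (pl N p) s t).isBounded
  have bA : Bornology.IsBounded (p '' Set.Icc i j) :=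
    ((Set.finite_Icc i j).image p).isBounded
  constructor
  · show c0 * (δ ^ (7/4 : ℝ) * N * ((t : ℝ) - s)) ≤
      ε ^ (7/4 : ℝ) * ((cs ε (3/2 * ε) (pc (pl N p) s t)).ncard : ℝ) + 2 * ε ^ θ
    have h3 : cnt ε ε (p '' Set.Icc i j) ≤ (cs ε (3/2 * ε) (pc (pl N p) s t)).ncard :=
      Set.ncard_le_ncard (cs_mono (near1 hd hp' hst) (by linarith)) (cs_finite hε _ bK)
    have h4 : (cnt ε ε (p '' Set.Icc i j) : ℝ) ≤
      ((cs ε (3/2 * ε) (pc (pl N p) s t)).ncard : ℝ) := by exact_mod_cast h3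
    have h5 := mul_le_mul_of_nonneg_left h4 hε7
    have h6 : (N : ℝ) * ((t : ℝ) - s) ≤ (j - i) + 1 := by nlinarith
    have h7 : c0 * (δ ^ (7/4 : ℝ) * N * ((t : ℝ) - s)) ≤
        c0 * (δ ^ (7/4 : ℝ) * ((j : ℝ) - i)) + c0 * δ ^ (7/4 : ℝ) := by
      have := mul_le_mul_of_nonneg_left h6 (mul_pos hc0 hδ7).le
      nlinarith
    linarith
  · show ε ^ (7/4 : ℝ) * ((co ε (5/2 * ε) (pc (pl N p) s t)).ncard : ℝ) ≤
      C0 * (δ ^ (7/4 : ℝ) * N * ((t : ℝ) - s)) + 2 * ε ^ θ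
    have h3 : (co ε (5/2 * ε) (pc (pl N p) s t)).ncard ≤ cnt ε (3 * ε) (p '' Set.Icc i j) :=
      Set.ncard_le_ncard ((co_sub_cs _ _ _).trans (cs_mono (near2 hd hp') (by linarith)))
        (cs_finite hε _ bA)
    have h4 : ((co ε (5/2 * ε) (pc (pl N p) s t)).ncard : ℝ) ≤
      (cnt ε (3 * ε) (p '' Set.Icc i j) : ℝ) := by exact_mod_cast h3
    have h5 := mul_le_mul_of_nonneg_left h4 hε7
    have h6 : (j : ℝ) - i ≤ (N : ℝ) * ((t : ℝ) - s) + 1 := by nlinarith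
    have h7 : C0 * (δ ^ (7/4 : ℝ) * ((j : ℝ) - i)) ≤
        C0 * (δ ^ (7/4 : ℝ) * N * ((t : ℝ) - s)) + C0 * δ ^ (7/4 : ℝ) := by
      have := mul_le_mul_of_nonneg_left h6 (mul_pos hC0 hδ7).le
      nlinarith
    linarith

end Pool.Agent.Y256.ME
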