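import Pool.Agent.Y256.ME.B
import Pool.Agent.H443R3.UD.KP

/-!
ME-MINK: the natural time of every piece of every limit is comparable with the `7/4`-dimensional
Minkowski content of the piece.
-/

set_option autoImplicit false

namespace Pool.Agent.Y256.ME

open H974 Finset H342P H984P H984N MeasureTheory Filter Topology Pool.Agent.Y985.ME

/-- The probability of the complement of the closed set. -/
theorem prob_GG (R : Rect) {c0 C0 C1 θ ε0 : ℝ} (hc0 : 0 < c0) (hC0 : 0 < C0)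
    (H : ∀ ε : ℝ, 0 < ε → ε ≤ ε0 → ∃ δ0 : ℝ, 0 < δ0 ∧ ∀ δ : ℝ, 0 < δ → δ ≤ δ0 →
      R.prob δ (fun F => ¬ ∀ i j : ℕ, i ≤ j → j ≤ (R.dm δ).len F →
        c0 * (δ ^ (7/4 : ℝ) * ((j - i : ℕ) : ℝ)) ≤ ε ^ (7/4 : ℝ) *
          (cnt ε ε ((fun t => pos δ ((R.dm δ).walk F t)) '' Set.Icc i j) : ℝ) + ε ^ θ ∧
        ε ^ (7/4 : ℝ) *
          (cnt ε (3 * ε) ((fun t => pos δ ((R.dm δ).walk F t)) '' Set.Icc i j) : ℝ) ≤
          C0 * (δ ^ (7/4 : ℝ) * ((j - i : ℕ) : ℝ)) + ε ^ θ) ≤ C1 * ε ^ θ)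
    {ε : ℝ} (hε : 0 < ε) (hε0 : ε ≤ ε0) :
    ∃ δ1 : ℝ, 0 < δ1 ∧ ∀ d : ℝ, 0 < d → d ≤ δ1 →
      R.prob d (fun F => (R.curve d F, R.time d F) ∉ GG c0 C0 θ ε) ≤ C1 * ε ^ θ := by
  obtain ⟨δ0, hδ0, h⟩ := H ε hε hε0
  have hεθ : 0 < ε ^ θ := Real.rpow_pos_of_pos hε _
  set δ2 : ℝ := (ε ^ θ / (c0 + C0)) ^ (4/7 : ℝ) with hδ2
  have hδ2p : 0 < δ2 := by positivity
  refine ⟨min δ0 (min ε δ2), lt_min hδ0 (lt_min hε hδ2p), fun d hd hd1 => ?_⟩
  have d0 : d ≤ δ0 := hd1.trans (min_le_left _ _)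
  have dε : d ≤ ε := hd1.trans ((min_le_right _ _).trans (min_le_left _ _))
  have d2 : d ≤ δ2 := hd1.trans ((min_le_right _ _).trans (min_le_right _ _))
  have hd7 : d ^ (7/4 : ℝ) ≤ ε ^ θ / (c0 + C0) := by
    have h1 : d ^ (7/4 : ℝ) ≤ δ2 ^ (7/4 : ℝ) := Real.rpow_le_rpow hd.le d2 (by norm_num)
    have h2 : δ2 ^ (7/4 : ℝ) = ε ^ θ / (c0 + C0) := by
      rw [hδ2, ← Real.rpow_mul (by positivity)]
      norm_num
    linarith
  have hd7p : 0 ≤ d ^ (7/4 : ℝ) := Real.rpow_nonneg hd.le _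
  rw [le_div_iff₀ (by positivity)] at hd7
  refine le_trans (Pr_mono H443P.okh ?_) (h d hd d0)
  intro F _ hF hcon
  apply hF
  refine lat hc0 hC0 hε hd dε (by nlinarith) (by nlinarith) (fun k => ?_) hcon
  have := pos_nxt hd.le ((R.dm d).cfg F) ((R.dm d).walk F k)
  rwa [← walk_succ] at this

theorem rpow16 {ε : ℝ} (hε : 0 < ε) :
    (16 * ε) ^ (-(1/4) : ℝ) = 1/2 * ε ^ (-(1/4) : ℝ) := by
  rw [Real.mul_rpow (by norm_num) hε.le]
  congr 1
  rw [show (16 : ℝ) = 2 ^ (4 : ℝ) by norm_num, ← Real.rpow_mul (by norm_num)]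
  rw [show (4 : ℝ) * -(1/4) = -1 by norm_num, Real.rpow_neg_one]
  norm_num

theorem rpow74 {ε : ℝ} (hε : 0 < ε) : ε ^ (-(1/4) : ℝ) * ε ^ 2 = ε ^ (7/4 : ℝ) := by
  rw [← Real.rpow_natCast ε 2, ← Real.rpow_add hε]
  norm_num

/-- The deterministic part. -/
theorem det_part {c0 C0 θ e0 : ℝ} (hc0 : 0 < c0) (hC0 : 0 < C0) (hθ : 0 < θ)
    (he0 : 0 < e0) {p : X} (hp : 0 < p.2)
    (hG : ∀ᶠ k : ℕ in atTop, p ∈ GG c0 C0 θ (e0 * (1/2) ^ k)) :
    ∀ s t : unitInterval, s < t → ∃ ε0 : ℝ, 0 < ε0 ∧ ∀ ε : ℝ, 0 < ε → ε < ε0 →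
    (c0 * Real.pi / 16) * (p.2 * ((t : ℝ) - s)) ≤
      ε ^ (-(1/4) : ℝ) * (volume (Metric.cthickening ε (p.1 '' Set.Icc s t))).toReal ∧
    ε ^ (-(1/4) : ℝ) * (volume (Metric.cthickening ε (p.1 '' Set.Icc s t))).toReal ≤
      (2 * Real.pi * (C0 + 1)) * (p.2 * ((t : ℝ) - s)) := by
  intro s t hst
  have hst' : (s : ℝ) < t := hst
  set Δ : ℝ := p.2 * ((t : ℝ) - s) with hΔ
  have hΔ0 : 0 < Δ := mul_pos hp (by linarith)
  have hpi := Real.pi_pos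
  -- the error terms
  have hlim : Tendsto (fun k : ℕ => 2 * (e0 * (1/2) ^ k) ^ θ) atTop (𝓝 0) := by
    have h1 : Tendsto (fun k : ℕ => e0 * (1/2 : ℝ) ^ k) atTop (𝓝 (e0 * 0)) :=
      (tendsto_pow_atTop_nhds_zero_of_lt_one (by norm_num) (by norm_num)).const_mul e0
    rw [mul_zero] at h1
    have h2 : Tendsto (fun k : ℕ => (e0 * (1/2 : ℝ) ^ k) ^ θ) atTop (𝓝 ((0:ℝ) ^ θ)) :=
      (Real.continuousAt_rpow_const 0 θ (Or.inr hθ.le)).tendsto.comp h1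
    rw [Real.zero_rpow hθ.ne'] at h2
    simpa using h2.const_mul 2
  have hsm : ∀ᶠ k : ℕ in atTop, 2 * (e0 * (1/2) ^ k) ^ θ < min (c0 / 2) 1 * Δ :=
    hlim.eventually (gt_mem_nhds (by positivity))
  obtain ⟨m, hm⟩ := eventually_atTop.1 (hG.and hsm)
  refine ⟨e0 * (1/2) ^ m, by positivity, fun ε' hε' hlt => ?_⟩
  have hK : IsCompact (p.1 '' Set.Icc s t) := pc_compact p.1 s t
  have hx : ε' / e0 ≤ 1 := by
    rw [div_le_one he0]
    refine hlt.le.trans ?_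
    have : (1/2 : ℝ) ^ m ≤ 1 := pow_le_one₀ (by norm_num) (by norm_num)
    nlinarith
  obtain ⟨k, hk1, hk2⟩ := exists_nat_pow_near_of_lt_one (x := ε' / e0) (y := (1/2 : ℝ))
    (by positivity) hx (by norm_num) (by norm_num)
  have hkm : m ≤ k := by
    have h1 : (1/2 : ℝ) ^ (k + 1) < (1/2) ^ m := by
      refine hk1.trans ?_
      rw [div_lt_iff₀ he0]
      linarith
    have h2 : m < k + 1 := (pow_lt_pow_iff_right_of_lt_one₀ (by norm_num) (by norm_num)).1 h1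
    omega
  rw [lt_div_iff₀ he0] at hk1
  rw [div_le_iff₀ he0] at hk2
  have vmono : ∀ a b : ℝ, a ≤ b → (volume (Metric.cthickening a (p.1 '' Set.Icc s t))).toReal ≤
      (volume (Metric.cthickening b (p.1 '' Set.Icc s t))).toReal := fun a b hab =>
    ENNReal.toReal_mono hK.cthickening.measure_lt_top.ne
      (measure_mono (Metric.cthickening_mono hab _))
  have hmin1 : min (c0 / 2) 1 * Δ ≤ c0 / 2 * Δ :=
    mul_le_mul_of_nonneg_right (min_le_left _ _) hΔ0.le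
  have hmin2 : min (c0 / 2) 1 * Δ ≤ 1 * Δ :=
    mul_le_mul_of_nonneg_right (min_le_right _ _) hΔ0.le
  constructor
  · -- lower bound, `ε = ε_{k+2}`
    obtain ⟨hG1, hs1⟩ := hm (k + 2) (by omega)
    set ε : ℝ := e0 * (1/2) ^ (k + 2) with hε
    have hε0 : 0 < ε := by positivity
    have hle : 2 * ε ≤ ε' := by
      rw [hε, pow_succ, ← mul_assoc]
      nlinarith
    have hge : ε' ≤ 16 * ε := by
      have h1 : 16 * ε = 4 * ((1/2) ^ k * e0) := by rw [hε]; ring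
      rw [h1]
      nlinarith
    obtain ⟨g1, -⟩ := hG1 s t hst.le
    have g2 := area_low hε0 hK
    have g3 := vmono _ _ hle
    have h74 := rpow74 hε0
    set n : ℝ := ((cs ε (3/2 * ε) (p.1 '' Set.Icc s t)).ncard : ℝ) with hn
    set V : ℝ := (volume (Metric.cthickening ε' (p.1 '' Set.Icc s t))).toReal with hV
    have hV0 : 0 ≤ V := ENNReal.toReal_nonneg
    have g1' : c0 * Δ ≤ ε ^ (7/4 : ℝ) * n + 2 * ε ^ θ := g1
    have g4 : c0 / 2 * Δ ≤ ε ^ (-(1/4) : ℝ) * (ε ^ 2 * n) := by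
      have e1 : ε ^ (-(1/4) : ℝ) * (ε ^ 2 * n) = ε ^ (7/4 : ℝ) * n := by
        rw [← h74]; ring
      rw [e1]
      linarith
    have g5 : ε ^ 2 * n ≤ 4 / Real.pi * V := by
      have : Real.pi / 4 * (ε ^ 2 * n) ≤ V := by linarith
      rw [div_mul_eq_mul_div, le_div_iff₀ hpi]
      linarith
    have hq : 0 < ε ^ (-(1/4) : ℝ) := Real.rpow_pos_of_pos hε0 _
    have g6 : c0 / 2 * Δ ≤ ε ^ (-(1/4) : ℝ) * (4 / Real.pi * V) :=
      g4.trans (mul_le_mul_of_nonneg_left g5 hq.le)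
    have g7 : 1/2 * ε ^ (-(1/4) : ℝ) ≤ ε' ^ (-(1/4) : ℝ) := by
      rw [← rpow16 hε0]
      exact Real.rpow_le_rpow_of_nonpos hε' hge (by norm_num)
    have g8 : 1/2 * ε ^ (-(1/4) : ℝ) * V ≤ ε' ^ (-(1/4) : ℝ) * V :=
      mul_le_mul_of_nonneg_right g7 hV0
    have g9 : c0 * Real.pi / 16 * Δ ≤ 1/2 * ε ^ (-(1/4) : ℝ) * V := by
      have h1 : ε ^ (-(1/4) : ℝ) * (4 / Real.pi * V) * (Real.pi / 8) =
          1/2 * ε ^ (-(1/4) : ℝ) * V := by
        field_simp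
        ring
      rw [← h1]
      have := mul_le_mul_of_nonneg_right g6 (show 0 ≤ Real.pi / 8 by positivity)
      linarith
    exact g9.trans g8
  · -- upper bound, `ε = ε_k`
    obtain ⟨hG1, hs1⟩ := hm k hkm
    set ε : ℝ := e0 * (1/2) ^ k with hε
    have hε0 : 0 < ε := by positivity
    have hle : ε' ≤ ε := by rw [hε]; linarith
    have hge : ε / 16 ≤ ε' := by
      have h1 : (1/2 : ℝ) ^ (k + 1) * e0 = ε / 2 := by rw [hε, pow_succ]; ring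
      rw [h1] at hk1
      linarith
    obtain ⟨-, g1⟩ := hG1 s t hst.le
    have g2 := area_up hε0 hK
    have g3 := vmono _ _ hle
    have h74 := rpow74 hε0
    set n : ℝ := ((co ε (5/2 * ε) (p.1 '' Set.Icc s t)).ncard : ℝ) with hn
    set V : ℝ := (volume (Metric.cthickening ε' (p.1 '' Set.Icc s t))).toReal with hV
    have hV0 : 0 ≤ V := ENNReal.toReal_nonneg
    have g1' : ε ^ (7/4 : ℝ) * n ≤ C0 * Δ + 2 * ε ^ θ := g1
    have hq : 0 < ε ^ (-(1/4) : ℝ) := Real.rpow_pos_of_pos hε0 _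
    have g4 : ε' ^ (-(1/4) : ℝ) ≤ 2 * ε ^ (-(1/4) : ℝ) := by
      have h1 := rpow16 (ε := ε / 16) (by positivity)
      have h2 : 16 * (ε / 16) = ε := by ring
      rw [h2] at h1
      rw [h1]
      have h3 := Real.rpow_le_rpow_of_nonpos (show 0 < ε / 16 by positivity) hge
        (show (-(1/4) : ℝ) ≤ 0 by norm_num)
      linarith
    have g5 : ε' ^ (-(1/4) : ℝ) * V ≤ 2 * ε ^ (-(1/4) : ℝ) * (Real.pi * ε ^ 2 * n) :=
      mul_le_mul g4 (g3.trans g2) hV0 (by positivity)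
    have g6 : 2 * ε ^ (-(1/4) : ℝ) * (Real.pi * ε ^ 2 * n) =
        2 * Real.pi * (ε ^ (7/4 : ℝ) * n) := by
      rw [← h74]
      ring
    rw [g6] at g5
    have g7 : ε ^ (7/4 : ℝ) * n ≤ (C0 + 1) * Δ := by linarith
    have g8 := mul_le_mul_of_nonneg_left g7 (show 0 ≤ 2 * Real.pi by positivity)
    linarith

/-- TARGET -/
theorem mink : S_MESH → (∀ R : Rect, ∀ δ : ℕ → ℝ, (∀ i, 0 < δ i) → Tendsto δ atTop (𝓝 0) →
    ∀ μ : ProbabilityMeasure X, Tendsto (fun i => R.law (δ i)) atTop (𝓝 μ) →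
    ∀ᵐ p ∂(μ : Measure X), 0 < p.2) → ∀ R : Rect, Mink R := by
  intro hM hpos R
  obtain ⟨c0, C0, C1, θ, e0, hc0, hC0, hC1, hθ, he0, H⟩ := hM R
  have hpi := Real.pi_pos
  refine ⟨c0 * Real.pi / 16, 2 * Real.pi * (C0 + 1), by positivity, by positivity, ?_⟩
  intro δ hδ hlim μ hμ
  have hle : ∀ k : ℕ, e0 * (1/2 : ℝ) ^ k ≤ e0 := by
    intro k
    have : (1/2 : ℝ) ^ k ≤ 1 := pow_le_one₀ (by norm_num) (by norm_num)
    nlinarith
  have hpr : ∀ k : ℕ, (μ : Measure X) (GG c0 C0 θ (e0 * (1/2) ^ k))ᶜ ≤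
      ENNReal.ofReal (C1 * (e0 * (1/2) ^ k) ^ θ) := by
    intro k
    have hek : 0 < e0 * (1/2 : ℝ) ^ k := by positivity
    obtain ⟨δ1, hδ1, h⟩ := prob_GG R hc0 hC0 H hek (hle k)
    exact limit_closed R hδ hlim hμ (GG_closed hek) (by positivity) hδ1 h
  have hsum : (∑' k : ℕ, (μ : Measure X) (GG c0 C0 θ (e0 * (1/2) ^ k))ᶜ) ≠ ⊤ := by
    refine ne_top_of_le_ne_top ?_ (ENNReal.tsum_le_tsum hpr)
    have hS : Summable (fun k : ℕ => C1 * (e0 * (1/2 : ℝ) ^ k) ^ θ) := by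
      have e : (fun k : ℕ => C1 * (e0 * (1/2 : ℝ) ^ k) ^ θ) =
          fun k : ℕ => C1 * e0 ^ θ * ((1/2 : ℝ) ^ θ) ^ k := by
        funext k
        rw [Real.mul_rpow he0.le (by positivity), ← Real.rpow_natCast (1/2) k,
          ← Real.rpow_mul (by norm_num), mul_comm (k : ℝ) θ, Real.rpow_mul (by norm_num),
          Real.rpow_natCast]
        ring
      rw [e]
      apply Summable.mul_left
      apply summable_geometric_of_lt_one (by positivity)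
      exact Real.rpow_lt_one (by norm_num) (by norm_num) hθ
    exact hS.tsum_ofReal_ne_top
  have hBC := ae_eventually_notMem hsum
  filter_upwards [hBC, hpos R δ hδ hlim μ hμ] with p h1 h2
  apply det_part hc0 hC0 hθ he0 h2
  filter_upwards [h1] with k hk
  exact not_not.1 hk

end Pool.Agent.Y256.ME
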